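import Pool.Agent.H38.Msl.Hard

/-!
MIN-SUM is NP-complete on nice graphs and polynomial on forests (decision and value).
-/

namespace Pool.Agent.Results.MP_ec274c_lc.Full

open Pool.Agent.H38.NP Pool.Agent.H38.Msl

theorem result :
    (NPHardOn (fun I => Nice (gr I)) MinSum ∧ InNPOn (fun I => Nice (gr I)) MinSum) ∧
    InPOn (fun I => (gr I).IsAcyclic) MinSum ∧
    PolyTimeOn (fun p : ℕ × List (ℕ × ℕ) => (graphOf p.1 p.2).IsAcyclic)
      fun p => Bin.mk (mE (graphOf p.1 p.2)) :=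
  ⟨⟨hard, inNP _⟩, forest_P, forest_mE⟩

end Pool.Agent.Results.MP_ec274c_lc.Full
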